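import Pool.Agent.H5.RCQ.AS

set_option autoImplicit false

namespace Pool.Agent.H5.RCQ.A

open Pool.Agent.H39.RC Pool.Agent.H6.RCQ
open Classical

theorem a_ej {V : Type} (G : SimpleGraph V) (R : Finset V) (x y s t : V)
    (h : EJ G {x} {y} (CN G R x y) s t) : EJ G {y} {x} (CN G R y x) s t := by
  unfold EJ at h ⊢
  rw [AS.as_xx, AS.as_cn]
  exact h

theorem a (h3 : A3PStmt) (hI : A2IStmt) (hF : A2FStmt) (hN : A2NStmt) (hB : A2BStmt)
    (hat : ATStmt) : AStmt := by
  intro V G p lab R x y h
  by_cases hp : 3 ≤ p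
  · exact h3 V G p lab R x y h hp
  · have hp2 : p = 2 := by have := h.two; omega
    subst hp2
    rcases hat V G 2 lab R x y h with h1 | h1
    · exact hI V G lab R x y h h1
    · by_cases hne : (FF G R x y).Nonempty
      · exact hF V G lab R x y h h1 hne
      · rw [Finset.not_nonempty_iff_eq_empty] at hne
        obtain ⟨-, a1, a2, a3, k1, k2, k3, k4, k5, k6, k7, k8⟩ := h1
        by_cases he : ∀ e ∈ PB G R y x, G.Adj e a2
        · by_cases hb : ∀ b ∈ PB G R x y, G.Adj b a2
          · exact hB V G lab R x y h hne a1 a2 a3 k1 k2 k3 k4 k5 k6 k7 he hb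
          · push Not at hb
            exact hN V G lab R x y h hne a1 a2 a3 k1 k2 k3 k4 k5 k6 k7 he hb
        · have hb := k8.resolve_right he
          push Not at he
          obtain ⟨s1, s2, s3, s4, s5, s6, s7⟩ := AS.as V G 2 lab R x y h
          refine hN V G lab R y x s1 (s5.trans hne) a1 a2 a3 (s3.trans k1) k2 k3 k4
            (a_ej G R x y _ _ k5) (a_ej G R x y _ _ k6) ?_ hb he
          intro w hw
          rw [s6, s6, s6]
          exact k7 w hw.symm

end Pool.Agent.H5.RCQ.A
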