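import Pool.Agent.H6.RCQ.Stmts1
import Pool.Agent.H6.RCQ.Stmts2

set_option autoImplicit false

namespace Pool.Agent.H5.RCQ.A5

open Pool.Agent.H39.RC Pool.Agent.H6.RCQ
open Classical

theorem a5 (hcoa : COAStmt) (hcob : COBStmt) : A5Stmt := by
  intro V G p lab R x y h h5
  set M : Fin p → Finset V := fun l => (D G R x).filter (fun v => lab x v = l) with hM
  have hsum : (D G R x).card = ∑ l : Fin p, (M l).card :=
    Finset.card_eq_sum_card_fiberwise (f := fun v => lab x v) (t := Finset.univ)
      (fun _ _ => Finset.mem_coe.2 (Finset.mem_univ _))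
  have hMD : ∀ l, M l ⊆ D G R x := fun l => Finset.filter_subset _ _
  have hlab : ∀ l, ∀ m ∈ M l, ∀ m' ∈ M l, lab x m = lab x m' := fun l m hm m' hm' => by
    rw [(Finset.mem_filter.1 hm).2, (Finset.mem_filter.1 hm').2]
  have hle : ∀ l ∈ (Finset.univ : Finset (Fin p)), (M l).card ≤ 6 := by
    intro l _
    have hcof : CoF G {x} (M l) := by
      refine ⟨con_single x, ?_, ?_, ?_⟩
      · intro m hm hx
        have := (Finset.mem_filter.1 (hMD l hm)).2
        rw [Set.mem_singleton_iff.1 hx] at this
        exact G.loopless.irrefl _ this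
      · intro m hm
        exact ⟨x, rfl, (Finset.mem_filter.1 (hMD l hm)).2⟩
      · intro m hm m' hm' hne
        rcases h.cfg.lk m (Finset.mem_filter.1 (hMD l hm)).1 m'
          (Finset.mem_filter.1 (hMD l hm')).1 hne with hadj | ⟨w, _, h1, h2, h3⟩
        · exact .inl hadj
        · refine .inr ⟨w, ?_, h1.symm, h2⟩
          intro hw
          rw [Set.mem_singleton_iff.1 hw] at h3
          exact h3 (hlab l m hm m' hm')
    by_cases hg : ∃ g, g ∉ ({x} : Set V) ∧ 5 ≤ ((M l).filter (fun v => G.Adj g v)).card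
    · obtain ⟨g, hgx, hg5⟩ := hg
      have hall := hcoa V G {x} (M l) h.cfg.pg hcof g hgx hg5
      have hxg : x ≠ g := fun h => hgx (Set.mem_singleton_iff.2 h.symm)
      have hsub : (M l).erase g ⊆ CN G R x g := by
        intro m hm
        obtain ⟨h1, h2⟩ := Finset.mem_erase.1 hm
        have h3 := Finset.mem_filter.1 (hMD l h2)
        exact Finset.mem_filter.2 ⟨h3.1, h3.2, hall m h2 h1⟩
      have h1 := Finset.card_le_card hsub
      have h2 := h.max x g hxg
      have h3 := Finset.pred_card_le_card_erase (s := M l) (a := g)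
      omega
    · push Not at hg
      refine (hcob V G {x} (M l) h.cfg.pg hcof fun g hgx => ?_).1
      have := hg g hgx
      omega
  rw [hsum]
  have := Finset.sum_le_card_nsmul _ _ _ hle
  rw [Finset.card_univ, Fintype.card_fin, smul_eq_mul] at this
  omega

end Pool.Agent.H5.RCQ.A5
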