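import Pool.Agent.H5.RCQ.AS
import Pool.Agent.H6.RCQ.Stmts1

set_option autoImplicit false

namespace Pool.Agent.H5.RCQ.AB

open Pool.Agent.H39.RC Pool.Agent.H6.RCQ
open Classical

theorem ab_part {V : Type} (G : SimpleGraph V) (R : Finset V) (x : V) :
    R.card = ir R x + (D G R x).card + (U G R x).card := by
  have e1 : ir R x = ∑ r ∈ R, if r = x then 1 else 0 := by
    rw [Finset.sum_ite_eq']; rfl
  rw [e1]
  unfold D U
  rw [Finset.card_filter, Finset.card_filter, ← Finset.sum_add_distrib,
    ← Finset.sum_add_distrib, Finset.card_eq_sum_ones]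
  refine Finset.sum_congr rfl fun r hr => ?_
  by_cases hx : r = x
  · subst hx; simp
  · by_cases ax : G.Adj x r <;> simp [hx, ax]

theorem ab_one (hac : ACStmt) (hdeg : DEGStmt) (hstar : STARStmt) {V : Type} (G : SimpleGraph V)
    (p : ℕ) (lab : V → V → Fin p) (R : Finset V) (x y : V) (h : CA p G lab R x y) :
    p ≤ (PB G R y x).card := by
  have h1 := (hac V G p lab R x y h).1
  have hne := hstar V G p lab R x h.two h.cfg h.card
  have hd := hdeg V G p lab R x h.two h.cfg
  have hpart := ab_part G R x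
  have hir : ir R x ≤ 1 := by unfold ir; split_ifs <;> omega
  have hcard := h.card
  have hsub : (U G R x).erase y ⊆ PB G R y x := by
    intro v hv
    obtain ⟨hvy, hv⟩ := Finset.mem_erase.1 hv
    obtain ⟨hvR, hvx, hxv⟩ := Finset.mem_filter.1 hv
    exact Finset.mem_filter.2 ⟨hvR, (h1 v hvR hvx hvy).resolve_left hxv, hxv, hvx⟩
  have hc := Finset.card_le_card hsub
  by_cases hy : y ∈ U G R x
  · rw [Finset.card_erase_of_mem hy] at hc
    have := hd.2.2 ⟨y, hy, le_trans (by norm_num) h.five⟩
    omega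
  · rw [Finset.erase_eq_of_notMem hy] at hc
    have := hd.2.1 hne
    omega

theorem ab (hac : ACStmt) (hdeg : DEGStmt) (hstar : STARStmt) : ABStmt := by
  intro V G p lab R x y h
  exact ⟨ab_one hac hdeg hstar G p lab R y x (AS.as V G p lab R x y h).1,
    ab_one hac hdeg hstar G p lab R x y h⟩

end Pool.Agent.H5.RCQ.AB
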