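import Pool.Agent.H5.RCQ.AS
import Pool.Agent.H6.RCQ.Stmts1

set_option autoImplicit false

namespace Pool.Agent.H5.RCQ.AC

open Pool.Agent.H39.RC Pool.Agent.H6.RCQ
open Classical

theorem ac (hdom : DOMStmt) : ACStmt := by
  intro V G p lab R x y h
  have h1 : ∀ r ∈ R, r ≠ x → r ≠ y → G.Adj x r ∨ G.Adj y r := by
    intro r hr hrx hry
    by_contra hcon
    rw [not_or] at hcon
    obtain ⟨hxr, hyr⟩ := hcon
    refine hdom V G {x} {y} (CN G R x y) h.cfg.pg (AS.as V G p lab R x y h).2.2.2.2.2.2 h.five r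
      ?_ ?_
    · rintro ((h' | h') | h')
      · exact hrx (Set.mem_singleton_iff.1 h')
      · exact hry (Set.mem_singleton_iff.1 h')
      · exact hxr (Finset.mem_filter.1 (Finset.mem_coe.1 h')).2.1
    · intro s hs
      obtain ⟨hsR, hxs, hys⟩ := Finset.mem_filter.1 hs
      have hrs : r ≠ s := by rintro rfl; exact hxr hxs
      rcases h.cfg.lk r hr s hsR hrs with hadj | ⟨w, _, hwr, hws, _⟩
      · exact .inl hadj
      · refine .inr ⟨w, ?_, hwr.symm, hws⟩
        rintro (hw | hw)
        · rw [Set.mem_singleton_iff.1 hw] at hwr; exact hxr hwr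
        · rw [Set.mem_singleton_iff.1 hw] at hwr; exact hyr hwr
  refine ⟨h1, ?_⟩
  have e1 : ir R x = ∑ r ∈ R, if r = x then 1 else 0 := by
    rw [Finset.sum_ite_eq']; rfl
  have e2 : ir R y = ∑ r ∈ R, if r = y then 1 else 0 := by
    rw [Finset.sum_ite_eq']; rfl
  rw [e1, e2]
  unfold CN PB
  rw [Finset.card_filter, Finset.card_filter, Finset.card_filter, ← Finset.sum_add_distrib,
    ← Finset.sum_add_distrib, ← Finset.sum_add_distrib, ← Finset.sum_add_distrib,
    Finset.card_eq_sum_ones]
  refine Finset.sum_congr rfl fun r hr => ?_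
  have hne := h.ne
  by_cases hx : r = x
  · subst hx
    simp [hne]
  · by_cases hy : r = y
    · subst hy
      simp [hx]
    · by_cases ax : G.Adj x r
      · by_cases ay : G.Adj y r
        · simp [hx, hy, ax, ay]
        · simp [hx, hy, ax, ay]
      · have ay : G.Adj y r := (h1 r hr hx hy).resolve_left ax
        simp [hx, hy, ax, ay]

end Pool.Agent.H5.RCQ.AC
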