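import Pool.Agent.H5.RCQ.AS

set_option autoImplicit false

namespace Pool.Agent.H5.RCQ.AF

open Pool.Agent.H39.RC Pool.Agent.H6.RCQ
open Classical

theorem af_one {V : Type} {G : SimpleGraph V} {p : ℕ} {lab : V → V → Fin p}
    {R : Finset V} {x y : V} (h : CA p G lab R x y) {a : V} (ha : a ∈ FF G R x y) {b : V}
    (hb : b ∈ PB G R x y) : lab x a ≠ lab x b := by
  obtain ⟨haC, haN⟩ := Finset.mem_sdiff.1 ha
  obtain ⟨haR, hxa, hya⟩ := Finset.mem_filter.1 haC
  obtain ⟨hbR, hxb, hyb, hby⟩ := Finset.mem_filter.1 hb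
  have hbX : b ∉ XX {x} {y} (CN G R x y) := by
    rintro ((hb | hb) | hb)
    · rw [Set.mem_singleton_iff.1 hb] at hxb; exact G.loopless.irrefl _ hxb
    · exact hby (Set.mem_singleton_iff.1 hb)
    · exact hyb (Finset.mem_filter.1 (Finset.mem_coe.1 hb)).2.2
  have hnP : ∀ c ∈ CN G R x y, At G R x y b c → c ∈ PP G R x y := fun c hc hat =>
    Finset.mem_filter.2 ⟨hc, b, .inl hb, hat⟩
  have hA : ¬ At G R x y b a := fun hat =>
    haN (Finset.mem_filter.2 ⟨haC, .inl (hnP a haC hat)⟩)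
  have hab : a ≠ b := by rintro rfl; exact hyb hya
  rcases h.cfg.lk a haR b hbR hab with hadj | ⟨w, _, hwa, hwb, hl⟩
  · exact absurd (lnk_adj hbX hadj.symm) hA
  · by_cases hwX : w ∈ XX {x} {y} (CN G R x y)
    · rcases hwX with (hw | hw) | hw
      · rw [Set.mem_singleton_iff.1 hw] at hl
        exact hl
      · rw [Set.mem_singleton_iff.1 hw] at hwb; exact absurd hwb hyb
      · exfalso
        have hwC := Finset.mem_coe.1 hw
        refine haN (Finset.mem_filter.2 ⟨haC, .inr ⟨w, hnP w hwC (lnk_adj hbX hwb.symm), hwa.symm⟩⟩)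
    · exact absurd (lnk_cons hbX hwb.symm (lnk_adj hwX hwa)) hA

theorem af : AFStmt := by
  intro V G p lab R x y h a ha
  refine ⟨fun b hb => af_one h ha hb, fun e he => ?_⟩
  have h2 := AS.as V G p lab R x y h
  exact af_one h2.1 (h2.2.2.2.2.1 ▸ ha) he

end Pool.Agent.H5.RCQ.AF
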