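import Pool.Agent.H6.RCQ.Stmts2

set_option autoImplicit false

namespace Pool.Agent.H5.RCQ.AFF

open Pool.Agent.H39.RC Pool.Agent.H6.RCQ
open Classical

theorem aff (haf : AFStmt) (hae : AEStmt) : AFFStmt := by
  intro V G p lab R x y h
  set I := (PB G R x y).image (fun b => lab x b) with hI
  set J := (PB G R y x).image (fun e => lab y e) with hJ
  have h1 : (FF G R x y).card ≤
      3 * ((FF G R x y).image (fun a => (lab x a, lab y a))).card := by
    refine Finset.card_le_mul_card_image _ 3 ?_
    intro c _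
    refine hae V G p lab R x y h _ (.inl (Finset.filter_subset _ _)) ?_
    intro a ha b hb
    have h1 := (Finset.mem_filter.1 ha).2
    have h2 := (Finset.mem_filter.1 hb).2
    have h3 := h1.trans h2.symm
    exact ⟨congrArg Prod.fst h3, congrArg Prod.snd h3⟩
  refine h1.trans (Nat.mul_le_mul_left 3 ?_)
  have hsub : (FF G R x y).image (fun a => (lab x a, lab y a)) ⊆ (Finset.univ \ I) ×ˢ
      (Finset.univ \ J) := by
    intro c hc
    obtain ⟨a, ha, rfl⟩ := Finset.mem_image.1 hc
    obtain ⟨k1, k2⟩ := haf V G p lab R x y h a ha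
    rw [Finset.mem_product]
    refine ⟨Finset.mem_sdiff.2 ⟨Finset.mem_univ _, fun hm => ?_⟩,
      Finset.mem_sdiff.2 ⟨Finset.mem_univ _, fun hm => ?_⟩⟩
    · obtain ⟨b, hb, he⟩ := Finset.mem_image.1 hm
      exact k1 b hb he.symm
    · obtain ⟨b, hb, he⟩ := Finset.mem_image.1 hm
      exact k2 b hb he.symm
  refine (Finset.card_le_card hsub).trans (le_of_eq ?_)
  rw [Finset.card_product, Finset.card_sdiff_of_subset (Finset.subset_univ _),
    Finset.card_sdiff_of_subset (Finset.subset_univ _), Finset.card_univ, Fintype.card_fin]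

end Pool.Agent.H5.RCQ.AFF
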