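import Pool.Agent.H6.RCQ.Stmts2

set_option autoImplicit false

namespace Pool.Agent.H5.RCQ.AK

open Pool.Agent.H39.RC Pool.Agent.H6.RCQ
open Classical

theorem ak : AKStmt := by
  intro V G p lab R x y h a1 ha1 a2 ha2 h12 b hb b' hb' hbb k1 k2 k3 k4
  obtain ⟨-, hx1, hy1⟩ := Finset.mem_filter.1 ha1
  obtain ⟨-, hx2, hy2⟩ := Finset.mem_filter.1 ha2
  obtain ⟨-, hxb, hyb, hby⟩ := Finset.mem_filter.1 hb
  obtain ⟨-, hxb', hyb', hby'⟩ := Finset.mem_filter.1 hb'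
  obtain ⟨f, hf⟩ : ((CN G R x y) \ {a1, a2}).Nonempty := by
    rw [← Finset.card_pos]
    have := Finset.le_card_sdiff {a1, a2} (CN G R x y)
    have h2 : ({a1, a2} : Finset V).card ≤ 2 := Finset.card_le_two
    have := h.five
    omega
  rw [Finset.mem_sdiff, Finset.mem_insert, Finset.mem_singleton, not_or] at hf
  obtain ⟨hfC, hf1, hf2⟩ := hf
  obtain ⟨-, hxf, hyf⟩ := Finset.mem_filter.1 hfC
  apply h.cfg.pg.k33
  refine hasMinor_k33 ![{a1}, {a2}, {x}] ![{b}, {b'}, {y, f}] ?_ ?_ ?_ ?_ ?_ ?_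
  · intro i
    fin_cases i
    · exact con_single a1
    · exact con_single a2
    · exact con_single x
  · intro i
    fin_cases i
    · exact con_single b
    · exact con_single b'
    · exact con_pair (.inr hyf)
  · intro i j hij
    fin_cases i <;> fin_cases j <;> simp at hij ⊢
    · exact h12
    · exact hx1.ne'
    · exact hx2.ne'
  · intro i j hij
    fin_cases i <;> fin_cases j <;> simp at hij ⊢
    · exact hbb
    · exact ⟨hby, fun hh => hyb (hh ▸ hyf)⟩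
    · exact ⟨hby', fun hh => hyb' (hh ▸ hyf)⟩
  · intro i j
    fin_cases i <;> fin_cases j <;> simp
    · exact k1.ne'
    · exact k3.ne'
    · exact ⟨hy1.ne', fun hh => hf1 hh.symm⟩
    · exact k2.ne'
    · exact k4.ne'
    · exact ⟨hy2.ne', fun hh => hf2 hh.symm⟩
    · exact hxb.ne
    · exact hxb'.ne
    · exact ⟨h.ne, hxf.ne⟩
  · intro i j
    fin_cases i <;> fin_cases j
    · exact ⟨a1, rfl, b, rfl, k1.symm⟩
    · exact ⟨a1, rfl, b', rfl, k3.symm⟩
    · exact ⟨a1, rfl, y, .inl rfl, hy1.symm⟩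
    · exact ⟨a2, rfl, b, rfl, k2.symm⟩
    · exact ⟨a2, rfl, b', rfl, k4.symm⟩
    · exact ⟨a2, rfl, y, .inl rfl, hy2.symm⟩
    · exact ⟨x, rfl, b, rfl, hxb⟩
    · exact ⟨x, rfl, b', rfl, hxb'⟩
    · exact ⟨x, rfl, f, .inr rfl, hxf⟩

end Pool.Agent.H5.RCQ.AK
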