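import Pool.Agent.H6.RCQ.Stmts1
import Pool.Agent.H6.RCQ.Stmts2

set_option autoImplicit false

namespace Pool.Agent.H5.RCQ.AKEY

open Pool.Agent.H39.RC Pool.Agent.H6.RCQ
open Classical

theorem akey (hcom : COMStmt) (hat : ATStmt) : AKEYStmt := by
  intro V G p lab R x y h k m
  have hPP : (PP G R x y).card ≤ 3 := by
    rcases hat V G p lab R x y h with h1 | ⟨_, a1, a2, a3, h1, _⟩
    · exact h1.1.trans (by norm_num)
    · rw [h1]; exact Finset.card_le_three
  obtain ⟨f, hf⟩ : ((CN G R x y) \ PP G R x y).Nonempty := by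
    rw [← Finset.card_pos]
    have := Finset.le_card_sdiff (PP G R x y) (CN G R x y)
    have := h.five
    omega
  obtain ⟨hfC, hfP⟩ := Finset.mem_sdiff.1 hf
  obtain ⟨hfR, hxf, hyf⟩ := Finset.mem_filter.1 hfC
  set B := (PB G R x y).filter (fun b => lab x b = k) with hB
  set E := (PB G R y x).filter (fun e => lab y e = m) with hE
  have hBp : ∀ b ∈ B, b ∈ R ∧ G.Adj x b ∧ ¬ G.Adj y b ∧ b ≠ y ∧ lab x b = k ∧
      b ∈ PB G R x y := by
    intro b hb
    obtain ⟨hb1, hb2⟩ := Finset.mem_filter.1 hb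
    obtain ⟨h1, h2, h3, h4⟩ := Finset.mem_filter.1 hb1
    exact ⟨h1, h2, h3, h4, hb2, hb1⟩
  have hEp : ∀ b ∈ E, b ∈ R ∧ G.Adj y b ∧ ¬ G.Adj x b ∧ b ≠ x ∧ lab y b = m ∧
      b ∈ PB G R y x := by
    intro b hb
    obtain ⟨hb1, hb2⟩ := Finset.mem_filter.1 hb
    obtain ⟨h1, h2, h3, h4⟩ := Finset.mem_filter.1 hb1
    exact ⟨h1, h2, h3, h4, hb2, hb1⟩
  have hdisj : Disjoint B E := by
    rw [Finset.disjoint_left]
    intro b hb hb'
    exact (hBp b hb).2.2.1 (hEp b hb').2.1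
  have hX : ∀ w, (w ∈ B ∨ w ∈ E) → w ∉ XX {x} {y} (CN G R x y) := by
    rintro w (hw | hw) ((hx | hx) | hx)
    · have := (hBp w hw).2.1
      rw [Set.mem_singleton_iff.1 hx] at this; exact G.loopless.irrefl _ this
    · exact (hBp w hw).2.2.2.1 (Set.mem_singleton_iff.1 hx)
    · exact (hBp w hw).2.2.1 (Finset.mem_filter.1 (Finset.mem_coe.1 hx)).2.2
    · exact (hEp w hw).2.2.2.1 (Set.mem_singleton_iff.1 hx)
    · have := (hEp w hw).2.1
      rw [Set.mem_singleton_iff.1 hx] at this; exact G.loopless.irrefl _ this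
    · exact (hEp w hw).2.2.1 (Finset.mem_filter.1 (Finset.mem_coe.1 hx)).2.1
  have hPB : ∀ w, (w ∈ B ∨ w ∈ E) → (w ∈ PB G R x y ∨ w ∈ PB G R y x) := by
    rintro w (hw | hw)
    · exact .inl (hBp w hw).2.2.2.2.2
    · exact .inr (hEp w hw).2.2.2.2.2
  have hnf : ∀ w, (w ∈ B ∨ w ∈ E) → ¬ G.Adj f w := by
    intro w hw hadj
    exact hfP (Finset.mem_filter.2 ⟨hfC, w, hPB w hw, lnk_adj (hX w hw) hadj.symm⟩)
  have hR : ∀ w, (w ∈ B ∨ w ∈ E) → w ∈ R := by
    rintro w (hw | hw)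
    · exact (hBp w hw).1
    · exact (hEp w hw).1
  have hcon : Con G ({x, y, f} : Set V) := by
    have h1 : Con G ({y, f} : Set V) := con_pair (.inr hyf)
    exact h1.insert (Set.mem_insert_of_mem _ rfl) hxf.symm
  have hmain := hcom V G p lab {x, y, f} (B ∪ E) h.two h.cfg.pg hcon ?_ ?_ ?_
  · rw [Finset.card_union_of_disjoint hdisj] at hmain
    refine ⟨hmain.1, fun heq => ?_⟩
    obtain ⟨g, hg, hg2, _⟩ := hmain.2 heq
    exact ⟨g, hg, hg2⟩
  · intro w hw hO
    have hw' := Finset.mem_union.1 hw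
    simp only [Set.mem_insert_iff, Set.mem_singleton_iff] at hO
    rcases hO with hO | hO | hO
    · exact hX w hw' (.inl (.inl hO))
    · exact hX w hw' (.inl (.inr hO))
    · rw [hO] at hw'
      exact hX f hw' (.inr (Finset.mem_coe.2 hfC))
  · intro w hw
    rcases Finset.mem_union.1 hw with hw | hw
    · exact ⟨x, by simp, (hBp w hw).2.1⟩
    · exact ⟨y, by simp, (hEp w hw).2.1⟩
  · intro u hu v hv huv
    have hu' := Finset.mem_union.1 hu
    have hv' := Finset.mem_union.1 hv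
    rcases h.cfg.lk u (hR u hu') v (hR v hv') huv with hadj | ⟨w, _, h1, h2, h3⟩
    · exact .inl hadj
    · refine .inr ⟨w, ?_, h1, h2, h3⟩
      intro hO
      simp only [Set.mem_insert_iff, Set.mem_singleton_iff] at hO
      rcases hO with rfl | rfl | rfl
      · rcases hu' with hu' | hu'
        · rcases hv' with hv' | hv'
          · exact h3 ((hBp u hu').2.2.2.2.1.trans (hBp v hv').2.2.2.2.1.symm)
          · exact (hEp v hv').2.2.1 h2
        · exact (hEp u hu').2.2.1 h1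
      · rcases hu' with hu' | hu'
        · exact (hBp u hu').2.2.1 h1
        · rcases hv' with hv' | hv'
          · exact (hBp v hv').2.2.1 h2
          · exact h3 ((hEp u hu').2.2.2.2.1.trans (hEp v hv').2.2.2.2.1.symm)
      · exact hnf u hu' h1

end Pool.Agent.H5.RCQ.AKEY
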