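import Pool.Agent.H6.RCQ.Stmts2

set_option autoImplicit false

namespace Pool.Agent.H5.RCQ.AL

open Pool.Agent.H39.RC Pool.Agent.H6.RCQ
open Classical

theorem al : ALStmt := by
  intro V G p lab R x y h b hb e he
  obtain ⟨hbR, hxb, hyb, hby⟩ := Finset.mem_filter.1 hb
  obtain ⟨heR, hye, hxe, hex⟩ := Finset.mem_filter.1 he
  have hbe : b ≠ e := by rintro rfl; exact hxe hxb
  have hbX : b ∉ XX {x} {y} (CN G R x y) := by
    rintro ((hb | hb) | hb)
    · rw [Set.mem_singleton_iff.1 hb] at hxb; exact G.loopless.irrefl _ hxb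
    · exact hby (Set.mem_singleton_iff.1 hb)
    · exact hyb (Finset.mem_filter.1 (Finset.mem_coe.1 hb)).2.2
  have heX : e ∉ XX {x} {y} (CN G R x y) := by
    rintro ((he | he) | he)
    · exact hex (Set.mem_singleton_iff.1 he)
    · rw [Set.mem_singleton_iff.1 he] at hye; exact G.loopless.irrefl _ hye
    · exact hxe (Finset.mem_filter.1 (Finset.mem_coe.1 he)).2.1
  rcases h.cfg.lk b hbR e heR hbe with hadj | ⟨w, _, hwb, hwe, _⟩
  · left
    intro a
    exact ⟨fun k => lnk_cons heX hadj.symm k, fun k => lnk_cons hbX hadj k⟩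
  · by_cases hwX : w ∈ XX {x} {y} (CN G R x y)
    · rcases hwX with (hw | hw) | hw
      · rw [Set.mem_singleton_iff.1 hw] at hwe; exact absurd hwe hxe
      · rw [Set.mem_singleton_iff.1 hw] at hwb; exact absurd hwb hyb
      · right
        exact ⟨w, Finset.mem_coe.1 hw, hwb.symm, hwe, lnk_adj hbX hwb.symm, lnk_adj heX hwe.symm⟩
    · left
      intro a
      exact ⟨fun k => lnk_cons heX hwe.symm (lnk_cons hwX hwb k),
        fun k => lnk_cons hbX hwb.symm (lnk_cons hwX hwe k)⟩

end Pool.Agent.H5.RCQ.AL
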