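import Pool.Agent.H6.RCQ.Stmts2

set_option autoImplicit false

namespace Pool.Agent.H5.RCQ.AN0

open Pool.Agent.H39.RC Pool.Agent.H6.RCQ

theorem an0_aux (p β γ b e B E F : ℕ) (hp : 3 ≤ p) (hγ : 1 ≤ γ)
    (hβp : β ≤ p - 1) (hB : B ≤ β * b) (hE : E ≤ γ * e) (hbe : b + e ≤ 3 * p + 1)
    (hpE : p ≤ E) (hF : F ≤ 3 * ((p - β) * (p - γ))) (hγβ : γ ≤ β) :
    7 + F + B + E ≤ 3 * p ^ 2 + p + 1 := by
  obtain ⟨c, rfl⟩ := Nat.exists_eq_add_of_le hγβ
  obtain ⟨d, rfl⟩ : ∃ d, p = γ + c + d := ⟨p - (γ + c), by omega⟩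
  have hd : 1 ≤ d := by omega
  have e1 : γ + c + d - (γ + c) = d := by omega
  have e2 : γ + c + d - γ = c + d := by omega
  rw [e1, e2] at hF
  have key : 6 ≤ 3 * d * γ + d + c * e := by
    rcases Nat.lt_or_ge γ 2 with h | h
    · have h1 : γ = 1 := by omega
      subst h1
      have he : 3 ≤ e := by omega
      rcases Nat.eq_zero_or_pos c with hc | hc
      · subst hc; omega
      · have : 1 * 3 ≤ c * e := Nat.mul_le_mul hc he
        omega
    · have : 3 * 1 * 2 ≤ 3 * d * γ := Nat.mul_le_mul (by omega) h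
      omega
  have h1 : (γ + c) * (b + e) ≤ (γ + c) * (3 * (γ + c + d) + 1) := Nat.mul_le_mul_left _ hbe
  nlinarith

theorem an0 : AN0Stmt := by
  intro p β γ b e B E F hp hβ hγ hβp hγp hB hE hbe hpB hpE hF
  rcases Nat.le_total γ β with h | h
  · exact an0_aux p β γ b e B E F hp hγ hβp hB hE hbe hpE hF h
  · have := an0_aux p γ β e b E B F hp hβ hγp hE hB (by omega) hpB
      (by rwa [Nat.mul_comm (p - γ)]) h
    omega

end Pool.Agent.H5.RCQ.AN0
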