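import Pool.Agent.H6.RCQ.Stmts2

set_option autoImplicit false

namespace Pool.Agent.H5.RCQ.AS

open Pool.Agent.H39.RC Pool.Agent.H6.RCQ
open Classical

theorem as_cn {V : Type} (G : SimpleGraph V) (R : Finset V) (x y : V) :
    CN G R y x = CN G R x y := by
  unfold CN
  refine Finset.filter_congr fun v _ => and_comm

theorem as_xx {V : Type} (G : SimpleGraph V) (R : Finset V) (x y : V) :
    XX {y} {x} (CN G R y x) = XX {x} {y} (CN G R x y) := by
  unfold XX
  rw [as_cn, Set.union_comm {y} {x}]

theorem as_at {V : Type} (G : SimpleGraph V) (R : Finset V) (x y w a : V) :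
    At G R y x w a ↔ At G R x y w a := by
  unfold At
  rw [as_xx]

theorem as_pp {V : Type} (G : SimpleGraph V) (R : Finset V) (x y : V) :
    PP G R y x = PP G R x y := by
  unfold PP
  rw [as_cn]
  refine Finset.filter_congr fun v _ => exists_congr fun w => ?_
  rw [as_at, or_comm]

theorem as_nn {V : Type} (G : SimpleGraph V) (R : Finset V) (x y : V) :
    NN G R y x = NN G R x y := by
  unfold NN
  rw [as_cn, as_pp]

theorem as : ASStmt := by
  intro V G p lab R x y h
  refine ⟨⟨h.cfg, h.two, h.card, h.ne.symm, ?_, ?_⟩, as_cn G R x y, as_pp G R x y, as_nn G R x y,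
    ?_, fun w a => as_at G R x y w a, con_single x, con_single y, ?_, ?_, ?_, ?_, ?_⟩
  · rw [as_cn]; exact h.five
  · rw [as_cn]; exact h.max
  · unfold FF
    rw [as_cn, as_nn]
  · rw [Set.disjoint_singleton]; exact h.ne
  · intro s hs hx
    have := (Finset.mem_filter.1 hs).2.1
    rw [Set.mem_singleton_iff.1 hx] at this
    exact G.loopless.irrefl _ this
  · intro s hs hx
    have := (Finset.mem_filter.1 hs).2.2
    rw [Set.mem_singleton_iff.1 hx] at this
    exact G.loopless.irrefl _ this
  · intro s hs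
    exact ⟨x, rfl, (Finset.mem_filter.1 hs).2.1⟩
  · intro s hs
    exact ⟨y, rfl, (Finset.mem_filter.1 hs).2.2⟩

end Pool.Agent.H5.RCQ.AS
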