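import Pool.Agent.H6.RCQ.Stmts1

set_option autoImplicit false

namespace Pool.Agent.H5.RCQ.DEG

open Pool.Agent.H39.RC Pool.Agent.H6.RCQ
open Classical

theorem deg (hcom : COMStmt) (hfc : FCStmt) : DEGStmt := by
  intro V G p lab R x hp h
  set M : Fin p → Finset V := fun l => (D G R x).filter (fun v => lab x v = l) with hM
  have hsum : (D G R x).card = ∑ l : Fin p, (M l).card :=
    Finset.card_eq_sum_card_fiberwise (f := fun v => lab x v) (t := Finset.univ)
      (fun _ _ => Finset.mem_coe.2 (Finset.mem_univ _))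
  have hMD : ∀ l, M l ⊆ D G R x := fun l => Finset.filter_subset _ _
  have hlab : ∀ l, ∀ m ∈ M l, ∀ m' ∈ M l, lab x m = lab x m' := fun l m hm m' hm' => by
    rw [(Finset.mem_filter.1 hm).2, (Finset.mem_filter.1 hm').2]
  have hle : ∀ l, (M l).card ≤ 3 * p + 1 := by
    intro l
    refine (hcom V G p lab {x} (M l) hp h.pg (con_single x) ?_ ?_ ?_).1
    · intro m hm hx
      have := (Finset.mem_filter.1 (hMD l hm)).2
      rw [Set.mem_singleton_iff.1 hx] at this
      exact G.loopless.irrefl _ this
    · intro m hm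
      exact ⟨x, rfl, (Finset.mem_filter.1 (hMD l hm)).2⟩
    · intro m hm m' hm' hne
      rcases h.lk m (Finset.mem_filter.1 (hMD l hm)).1 m' (Finset.mem_filter.1 (hMD l hm')).1 hne
        with hadj | ⟨w, _, h1, h2, h3⟩
      · exact .inl hadj
      · refine .inr ⟨w, ?_, h1, h2, h3⟩
        intro hw
        rw [Set.mem_singleton_iff.1 hw] at h3
        exact h3 (hlab l m hm m' hm')
  refine ⟨?_, ?_, ?_⟩
  · rw [hsum]
    refine (Finset.sum_le_card_nsmul _ _ _ fun l _ => hle l).trans (le_of_eq ?_)
    rw [Finset.card_univ, Fintype.card_fin, smul_eq_mul]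
    ring
  · rintro ⟨u, hu⟩
    rw [hsum]
    by_cases hf : ∃ l0, (M l0).card = 3 * p + 1
    · obtain ⟨l0, hl0⟩ := hf
      have hothers : ∀ l ∈ (Finset.univ : Finset (Fin p)).erase l0, (M l).card ≤ 3 * p := by
        intro l hl
        have hne := (Finset.mem_erase.1 hl).1
        by_contra hcon
        have hl1 : (M l).card = 3 * p + 1 := by have := hle l; omega
        obtain ⟨⟨g, hg, hug⟩, _, _⟩ := hfc V G p lab R (M l) x hp h (hMD l) (hlab l) hl1 u hu
        have h2 := (hfc V G p lab R (M l0) x hp h (hMD l0) (hlab l0) hl0 u hu).2.1 g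
          (hMD l hg) hug
        exact hne ((Finset.mem_filter.1 hg).2.symm.trans (Finset.mem_filter.1 h2).2)
      rw [← Finset.add_sum_erase _ _ (Finset.mem_univ l0), hl0]
      have := Finset.sum_le_card_nsmul _ _ _ hothers
      rw [Finset.card_erase_of_mem (Finset.mem_univ _), Finset.card_univ, Fintype.card_fin,
        smul_eq_mul] at this
      obtain ⟨q, rfl⟩ : ∃ q, p = q + 1 := ⟨p - 1, by omega⟩
      simp only [Nat.add_sub_cancel] at this
      nlinarith
    · have : ∀ l ∈ (Finset.univ : Finset (Fin p)), (M l).card ≤ 3 * p := by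
        intro l _
        have h1 := hle l
        have h2 : (M l).card ≠ 3 * p + 1 := fun h3 => hf ⟨l, h3⟩
        omega
      have := Finset.sum_le_card_nsmul _ _ _ this
      rw [Finset.card_univ, Fintype.card_fin, smul_eq_mul] at this
      nlinarith
  · rintro ⟨u, hu, h4⟩
    rw [hsum]
    have : ∀ l ∈ (Finset.univ : Finset (Fin p)), (M l).card ≤ 3 * p := by
      intro l _
      have h1 := hle l
      have h2 : (M l).card ≠ 3 * p + 1 := fun h3 => by
        have := (hfc V G p lab R (M l) x hp h (hMD l) (hlab l) h3 u hu).2.2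
        omega
      omega
    have := Finset.sum_le_card_nsmul _ _ _ this
    rw [Finset.card_univ, Fintype.card_fin, smul_eq_mul] at this
    nlinarith

end Pool.Agent.H5.RCQ.DEG
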